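import Mathlib

/-! Symmetric powers of a matrix and their determinants. -/

namespace Pool.Agent.Lib.MP_651af7_nt.Xs

open MvPolynomial Finset Matrix

variable {k R E σ τ : Type} [CommRing k] [CommRing R] [Algebra k R] [Fintype σ] [DecidableEq σ]
  {m : ℕ}

/-- The exponents of degree `m`. -/
abbrev Mon (σ : Type) [Fintype σ] [DecidableEq σ] (m : ℕ) : Type :=
  ↥(finsuppAntidiag (univ : Finset σ) m)

theorem mem_mon {μ : σ →₀ ℕ} : μ ∈ finsuppAntidiag (univ : Finset σ) m ↔ μ.degree = m := by
  simp [Finsupp.degree_eq_sum]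

theorem Mon.deg (μ : Mon σ m) : μ.1.degree = m := mem_mon.1 μ.2

theorem Mon.sum (μ : Mon σ m) : ∑ j, μ.1 j = m := (Finsupp.degree_eq_sum _).symm.trans μ.deg

theorem hom_sum {P : MvPolynomial σ R} (hP : P.IsHomogeneous m) :
    P = ∑ μ : Mon σ m, coeff μ.1 P • monomial μ.1 1 := by
  ext ν
  rw [coeff_sum]
  simp only [coeff_smul, coeff_monomial, smul_eq_mul, mul_ite, mul_one, mul_zero]
  by_cases h : ν.degree = m
  · rw [sum_eq_single ⟨ν, mem_mon.2 h⟩ (fun μ _ e => if_neg fun e' => e (Subtype.ext e'))
      fun e => (e (mem_univ _)).elim, if_pos rfl]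
  · rw [hP.coeff_eq_zero h]
    exact (sum_eq_zero fun μ _ => if_neg fun e : μ.1 = ν => h (e ▸ μ.deg)).symm

theorem hom_map {V : Type} [AddCommGroup V] [Module R V] (φ : MvPolynomial σ R →ₗ[R] V)
    {P : MvPolynomial σ R} (hP : P.IsHomogeneous m) :
    φ P = ∑ μ : Mon σ m, coeff μ.1 P • φ (monomial μ.1 1) := by
  conv_lhs => rw [hom_sum hP]
  simp only [map_sum, map_smul]

omit [DecidableEq σ] in
/-- The linear forms given by the rows of `M`. -/
noncomputable def lf (M : Matrix E σ R) (i : E) : MvPolynomial σ R := ∑ l, C (M i l) * X l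

omit [DecidableEq σ] in
theorem lf_hom (M : Matrix E σ R) (i : E) : (lf M i).IsHomogeneous 1 :=
  IsHomogeneous.sum _ _ _ fun l _ => isHomogeneous_C_mul_X _ l

omit [DecidableEq σ] in
theorem sub_hom (M : Matrix E σ R) {P : MvPolynomial E k} (hP : P.IsHomogeneous m) :
    (aeval (lf M) P).IsHomogeneous m := by
  simpa using hP.aeval (lf M) (lf_hom M)

omit [DecidableEq σ] in
theorem aeval_lf {S : Type} [CommRing S] [Algebra R S] (M : Matrix E σ R) (t : σ → S) (i : E) :
    aeval t (lf M i) = ∑ l, M i l • t l := by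
  simp [lf, Algebra.smul_def]

omit [DecidableEq σ] in
theorem aeval_sub {S : Type} [CommRing S] [Algebra R S] [Algebra k S] [IsScalarTower k R S]
    (M : Matrix E σ R) (t : σ → S) (P : MvPolynomial E k) :
    aeval t (aeval (lf M) P) = aeval (fun i => ∑ l, M i l • t l) P := by
  simpa only [AlgHom.coe_restrictScalars', aeval_lf] using
    comp_aeval_apply (lf M) ((aeval (R := R) t).restrictScalars k) P

omit [DecidableEq σ] in
theorem sub_sub [Fintype τ] (M : Matrix E σ R) (N : Matrix σ τ R) (P : MvPolynomial E k) :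
    aeval (lf N) (aeval (lf M) P) = aeval (lf (M * N)) P := by
  rw [aeval_sub]
  refine congrArg (fun z => aeval z P) (funext fun i => ?_)
  simp only [lf, mul_apply, map_sum, smul_sum, sum_mul, map_mul, smul_eq_C_mul, mul_assoc]
  exact sum_comm

omit [DecidableEq σ] in
theorem sub_smul (c : R) (M : Matrix E σ R) {P : MvPolynomial E k} (hP : P.IsHomogeneous m) :
    aeval (lf (c • M)) P = c ^ m • aeval (lf M) P := by
  have h : lf (c • M) = fun i => C c * lf M i := funext fun i => by
    simp only [lf, Matrix.smul_apply, smul_eq_mul, map_mul, mul_sum, mul_assoc]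
  rw [h, aeval_def, aeval_def, eval₂_eq, eval₂_eq, smul_sum]
  refine sum_congr rfl fun μ hμ => ?_
  simp only [mul_pow, prod_mul_distrib, prod_pow_eq_pow_sum, ← hP.degree_eq_sum_deg_support hμ,
    smul_eq_C_mul, map_pow]
  ring

omit [DecidableEq σ] in
theorem map_sub' {S : Type} [CommRing S] [Algebra k S] (φ : R →ₐ[k] S) (M : Matrix E σ R)
    (P : MvPolynomial E k) : map (φ : R →+* S) (aeval (lf M) P) = aeval (lf (M.map φ)) P := by
  have h := comp_aeval_apply (lf M) (mapAlgHom (σ := σ) φ) P
  refine h.trans (congrArg (fun z => aeval z P) (funext fun i => ?_))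
  simp [lf]

theorem lf_one : lf (1 : Matrix σ σ R) = X := funext fun i => by
  simp [lf, one_apply, apply_ite C, ite_mul]

/-- The symmetric power of a matrix. -/
noncomputable def sy (m : ℕ) (M : Matrix σ σ R) : Matrix (Mon σ m) (Mon σ m) R :=
  of fun α μ => coeff μ.1 (aeval (lf M) (monomial α.1 (1 : R)))

theorem sy_mul (M N : Matrix σ σ R) : sy m (M * N) = sy m M * sy m N := by
  ext α ν
  rw [sy, of_apply, ← sub_sub, mul_apply]
  exact hom_map ((lcoeff R ν.1).comp (aeval (lf N)).toLinearMap)
    (sub_hom M (isHomogeneous_monomial _ α.deg))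

theorem sy_diag (d : σ → R) : sy m (diagonal d) = diagonal fun α => ∏ j, d j ^ α.1 j := by
  ext α ν
  have h : lf (diagonal d) = fun i => C (d i) * X i := funext fun i => by
    simp [lf, diagonal_apply, apply_ite C, ite_mul]
  have h1 : aeval (lf (diagonal d)) (monomial α.1 (1 : R)) = monomial α.1 (∏ j, d j ^ α.1 j) := by
    rw [aeval_monomial, map_one, one_mul, h, monomial_eq, Finsupp.prod_fintype _ _ (by simp),
      Finsupp.prod_fintype _ _ (by simp)]
    simp only [mul_pow, prod_mul_distrib, map_prod, map_pow]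
  rw [sy, of_apply, h1, coeff_monomial, diagonal_apply]
  simp only [Subtype.ext_iff]

/-- The sum of the exponents of one variable. -/
def qq (m : ℕ) (j : σ) : ℕ := ∑ μ : Mon σ m, μ.1 j

theorem qq_eq (i j : σ) : qq m i = qq m j := by
  have h : ∀ μ : Mon σ m, Finsupp.equivMapDomain (Equiv.swap i j) μ.1 ∈
      finsuppAntidiag (univ : Finset σ) m := fun μ => by
    rw [mem_mon, Finsupp.degree_eq_sum]
    exact (Equiv.sum_comp (Equiv.swap i j).symm μ.1).trans μ.sum
  have h1 : Function.Involutive fun μ : Mon σ m => (⟨_, h μ⟩ : Mon σ m) := fun μ =>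
    Subtype.ext (Finsupp.ext fun a => by simp)
  rw [qq, qq, ← h1.bijective.sum_comp]
  simp

theorem card_qq (j : σ) : Fintype.card σ * qq m j = m * Fintype.card (Mon σ m) := by
  have h : ∑ i : σ, qq m i = ∑ μ : Mon σ m, m := by
    simp only [qq]
    rw [sum_comm]
    exact sum_congr rfl fun μ _ => μ.sum
  simpa [qq_eq _ j, mul_comm] using h

theorem det_sy {F : Type} [Field F] [CharZero F] (j : σ) {M : Matrix σ σ F} (hM : M.det ≠ 0) :
    (sy m M).det = M.det ^ qq m j := by
  have h1 : ∀ d : σ → F, (sy m (diagonal d)).det = (diagonal d).det ^ qq m j := fun d => by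
    rw [sy_diag, det_diagonal, det_diagonal, prod_comm, ← prod_pow]
    exact prod_congr rfl fun i _ => by rw [prod_pow_eq_pow_sum, ← qq_eq i j, qq]
  refine diagonal_transvection_induction_of_det_ne_zero (fun M => (sy m M).det = M.det ^ qq m j)
    M hM (fun d _ => h1 d) (fun ⟨a, b, hab, c⟩ => ?_) fun A B _ _ hA hB => by
      rw [sy_mul, det_mul, det_mul, mul_pow, hA, hB]
  rw [TransvectionStruct.det, one_pow, TransvectionStruct.toMatrix_mk]
  have h2 : ∀ x y : F, (sy m (transvection a b (x + y))).det =
      (sy m (transvection a b x)).det * (sy m (transvection a b y)).det := fun x y => by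
    rw [← det_mul, ← sy_mul, transvection_mul_transvection_same a b hab]
  have h3 : (diagonal (Function.update 1 a (2 : F))) * transvection a b c =
      transvection a b (c + c) * diagonal (Function.update 1 a 2) := by
    ext x y
    rw [diagonal_mul, mul_diagonal]
    simp only [transvection, Matrix.add_apply, one_apply, single_apply, Function.update_apply,
      Pi.one_apply]
    split_ifs <;> grind
  have h4 := congrArg (fun N => (sy m N).det) h3
  have h5 : (diagonal (Function.update 1 a (2 : F))).det ^ qq m j ≠ 0 := pow_ne_zero _ (by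
    rw [det_diagonal]
    exact prod_ne_zero_iff.2 fun x _ => by by_cases hx : x = a <;> simp [hx])
  simp only [sy_mul, det_mul, h1, h2] at h4
  have h6 := h2 c (-c)
  rw [add_neg_cancel, transvection_zero, ← diagonal_one, h1, diagonal_one, det_one, one_pow] at h6
  have h7 := left_ne_zero_of_mul_eq_one h6.symm
  rw [mul_comm] at h4
  exact (mul_left_cancel₀ h7 ((mul_right_cancel₀ h5 h4).symm.trans (mul_one _).symm))

theorem card_mon (n m : ℕ) : Fintype.card (Mon (Fin (n + 1)) m) = (m + n).choose n := by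
  rw [Fintype.card_coe, card_finsuppAntidiag_nat_eq_choose, card_univ, Fintype.card_fin,
    show n + 1 + m - 1 = m + n by omega, Nat.choose_symm_add]

end Pool.Agent.Lib.MP_651af7_nt.Xs
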