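import Pool.Agent.Lib.MP_651af7_nt.Xs.Mon

/-! The numbers of monomials. -/

namespace Pool.Agent.Lib.MP_651af7_nt.Xs

open Polynomial Finset Filter

/-- The number of monomials of degree `m` in `n + 1` variables. -/
def pp (n m : ℕ) : ℕ := Fintype.card (Mon (Fin (n + 1)) m)

theorem pp_eq (n m : ℕ) : pp n m = (m + n).choose n := card_mon n m

theorem pp_pos (n m : ℕ) : 0 < pp n m := pp_eq n m ▸ Nat.choose_pos (Nat.le_add_left n m)

theorem pp_mono (n : ℕ) {a b : ℕ} (h : a ≤ b) : pp n a ≤ pp n b := by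
  rw [pp_eq, pp_eq]
  exact Nat.choose_le_choose n (Nat.add_le_add_right h n)

theorem pp_conv (n e : ℕ) {a b : ℕ} (h : a ≤ b) :
    pp n (a + e) + pp n b ≤ pp n (b + e) + pp n a := by
  simp only [pp_eq]
  rcases n with _ | n
  · simp
  induction e with
  | zero => simp [add_comm]
  | succ e ih =>
    have h1 := fun c : ℕ => Nat.choose_succ_succ' (c + e + (n + 1)) n
    have h2 := Nat.choose_le_choose n (show a + e + (n + 1) ≤ b + e + (n + 1) by omega)
    rw [show a + (e + 1) + (n + 1) = a + e + (n + 1) + 1 by ring,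
      show b + (e + 1) + (n + 1) = b + e + (n + 1) + 1 by ring, h1, h1]
    omega

theorem deg_diff {P : ℝ[X]} (hP : P ≠ 0) (e : ℝ) : (taylor e P - P).degree < P.degree :=
  (degree_sub_lt_left (degree_taylor P e) ((taylor_eq_zero e P).not.2 hP)
    (leadingCoeff_taylor e P)).trans_eq (degree_taylor P e)

theorem exists_deg (n e M₀ : ℕ) {δ : ℝ} (hδ : 0 < δ) : ∃ M : ℕ, M₀ ≤ M ∧
    ((M + e + e : ℕ) : ℝ) * (pp n (M + e + e) - 2 * pp n (M + e) + pp n M) ≤ δ * pp n M ∧
    (pp n (M + e) : ℝ) - pp n M ≤ δ * pp n M := by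
  obtain ⟨P, hP, h0⟩ : ∃ P : ℝ[X], P ≠ 0 ∧ ∀ m : ℕ, P.eval (m : ℝ) = pp n m := by
    refine ⟨C (n.factorial : ℝ)⁻¹ * ∏ i ∈ range n, (X + C (1 + i : ℝ)), mul_ne_zero
      (C_ne_zero.2 (by positivity)) (prod_ne_zero_iff.2 fun i _ => X_add_C_ne_zero _), fun m => ?_⟩
    have h1 := Nat.ascFactorial_eq_factorial_mul_choose m n
    rw [Nat.ascFactorial_eq_prod_range] at h1
    have h2 := congrArg (Nat.cast (R := ℝ)) h1
    push_cast at h2
    simp only [eval_mul, eval_C, eval_prod, eval_add, eval_X, ← add_assoc, h2, pp_eq]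
    field_simp
  have h1 := deg_diff hP e
  have h2 : ((X + C (e + e : ℝ)) * (taylor (e : ℝ) (taylor (e : ℝ) P - P) -
      (taylor (e : ℝ) P - P))).degree < P.degree := by
    rcases eq_or_ne (taylor (e : ℝ) P - P) 0 with h | h
    · simpa [h] using bot_lt_iff_ne_bot.2 (degree_ne_bot.2 hP)
    refine lt_of_le_of_lt ?_ h1
    rw [degree_mul, degree_X_add_C, add_comm]
    exact Nat.WithBot.add_one_le_of_lt (deg_diff h e)
  have h3 := fun {Q : ℝ[X]} (h : Q.degree < P.degree) => tendsto_natCast_atTop_atTop.eventually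
    ((isLittleO_atTop_of_degree_lt Q P h).bound hδ)
  obtain ⟨M, a1, a2, a3⟩ := ((eventually_ge_atTop M₀).and ((h3 h2).and (h3 h1))).exists
  simp only [eval_mul, eval_sub, eval_add, eval_X, eval_C, taylor_eval, map_sub, ← Nat.cast_add, h0,
    Real.norm_eq_abs, Nat.abs_cast] at a2 a3
  refine ⟨M, a1, le_trans (le_of_eq ?_) ((le_abs_self _).trans a2), (le_abs_self _).trans a3⟩
  rw [add_assoc M e e]
  ring

end Pool.Agent.Lib.MP_651af7_nt.Xs
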